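import Pool.Agent.Run7.h380.RF.Main

set_option autoImplicit false

/-!
# MP_c66c79_nt: Pell numbers without small prime factors

A Pell number `P_n`, `n > 2`, can be prime only if `n` is an odd prime; then all its prime factors are
`± 1` modulo `n`, so they are at least `2 n - 1`. We show that for almost all primes `n` all the prime
factors of `P_n` (and of its companion `H_n`, where `H_n + P_n √2 = (1 + √2) ^ n`) are larger than
`n g(n)`, for every `g(n) = o(log n)`, and that for at least `X ^ (9 / 10)` primes `n ∈ (X, 3 X]`, in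
every residue class prime to a squarefree modulus, they are larger than `c n f(n)`, where
`f(n) = log n (log₂ n)² log₄ n / (log₃ n)²` (iterated logarithms).

This is the theorem `MP_927e73_nt.RoughSolutions` for the Pell numbers.
-/

namespace Pool.Agent.Results.MP_c66c79_nt.RoughPellNumbers

/-- The Pell numbers `P_n`. -/
def pell : ℕ → ℕ
  | 0 => 0
  | 1 => 1
  | n + 2 => 2 * pell (n + 1) + pell n

/-- The companions `H_n`: `H_n + P_n √2 = (1 + √2) ^ n`. -/
def companion : ℕ → ℕ
  | 0 => 1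
  | 1 => 1
  | n + 2 => 2 * companion (n + 1) + companion n

/-- `q` is a prime factor of `P_n H_n`. -/
def IsFactor (n q : ℕ) : Prop := q.Prime ∧ q ∣ pell n * companion n

/-- The record scale `f(x) = log x (log₂ x)² log₄ x / (log₃ x)²` (iterated natural logarithms). -/
noncomputable def f (x : ℝ) : ℝ :=
  Real.log x * (Real.log (Real.log x)) ^ 2 * Real.log (Real.log (Real.log (Real.log x))) /
    (Real.log (Real.log (Real.log x))) ^ 2

lemma sol_eq (n : ℕ) : Run7.h380.RF.sol n = (companion n, pell n) := by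
  induction n using Nat.strong_induction_on with
  | _ n ih =>
    match n with
    | 0 => rfl
    | 1 => rfl
    | n + 2 =>
      have h0 := ih n (by omega)
      have h1 := ih (n + 1) (by omega)
      have e1 : Run7.h380.RF.sol (n + 2) = ((Run7.h380.RF.sol (n + 1)).1 +
        2 * (Run7.h380.RF.sol (n + 1)).2, (Run7.h380.RF.sol (n + 1)).1 +
        (Run7.h380.RF.sol (n + 1)).2) := rfl
      have e2 : Run7.h380.RF.sol (n + 1) = ((Run7.h380.RF.sol n).1 +
        2 * (Run7.h380.RF.sol n).2, (Run7.h380.RF.sol n).1 +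
        (Run7.h380.RF.sol n).2) := rfl
      rw [h0, h1, Prod.mk.injEq] at e2
      rw [e1, h1]
      have e3 : companion (n + 2) = 2 * companion (n + 1) + companion n := rfl
      have e4 : pell (n + 2) = 2 * pell (n + 1) + pell n := rfl
      rw [e3, e4, Prod.mk.injEq]
      simp only at e2 ⊢
      omega

lemma factor {n q : ℕ} (h : IsFactor n q) : Run7.h380.RF.Factor n q := by
  refine ⟨h.1, Or.inl ?_⟩
  rw [sol_eq, mul_comm]
  exact h.2

/-- `P_n` are the Pell numbers, `H_n` their companions.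
(A) At most `C K N / (log N) ^ 2` odd primes `n ≤ N` are such that `P_n H_n` has a prime factor
`q ≤ K n`. (B) At least `X ^ (9 / 10)` primes `n ∈ (X, 3 X]`, `n ≡ h (mod d)`, are such that all
prime factors of `P_n H_n` are larger than `c X f(X)`. -/
theorem result :
    (∀ n : ℕ, (companion n : ℝ) + (pell n : ℝ) * √2 = (1 + √2) ^ n) ∧
    -- (A) almost all prime indices
    (∃ C : ℝ, 0 < C ∧ ∀ N K : ℕ, 2 ≤ N →
      ({n : ℕ | n.Prime ∧ n ≠ 2 ∧ n ≤ N ∧ ∃ q : ℕ, IsFactor n q ∧ q ≤ K * n}.ncard : ℝ) ≤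
        C * K * N / (Real.log N) ^ 2) ∧
    -- (B) many prime indices, the record scale
    (∀ d : ℕ, Squarefree d → ∃ c : ℝ, 0 < c ∧ ∃ X₀ : ℝ, ∀ X : ℝ, X₀ ≤ X →
      ∀ h : ℕ, h.Coprime d →
      X ^ (9 / 10 : ℝ) ≤ ({n : ℕ | n.Prime ∧ X < n ∧ (n : ℝ) ≤ 3 * X ∧ n ≡ h [MOD d] ∧
        ∀ q : ℕ, IsFactor n q → c * X * f X < q}.ncard : ℝ)) := by
  refine ⟨fun n => ?_, ?_, fun d hd => ?_⟩
  · have h := Run7.h380.RF.sol_real n
    rw [sol_eq] at h
    exact h
  · obtain ⟨C, hC, h⟩ := Run7.h380.RF.partA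
    refine ⟨C, hC, fun N K hN => le_trans ?_ (h N K hN)⟩
    refine Nat.cast_le.2 (Set.ncard_le_ncard ?_ ?_)
    · rintro n ⟨h1, h2, h3, q, h4, h5⟩
      exact ⟨h1, h2, h3, q, factor h4, h5⟩
    · exact (Set.finite_Iic N).subset fun n hn => hn.2.2.1
  · obtain ⟨c, hc, X₀, h⟩ := Run7.h380.RF.partB d hd
    refine ⟨c, hc, X₀, fun X hX a ha => (h X hX a ha).trans ?_⟩
    refine Nat.cast_le.2 (Set.ncard_le_ncard ?_ ?_)
    · rintro n ⟨h1, h2, h3, h4, h5⟩
      exact ⟨h1, h2, h3, h4, fun q hq => h5 q (factor hq)⟩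
    · exact (Set.finite_Iic ⌊3 * X⌋₊).subset fun n hn => Nat.le_floor hn.2.2.1

end Pool.Agent.Results.MP_c66c79_nt.RoughPellNumbers
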